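import Pool.Agent.Lib.MP_be0380_co.F.Final
import Pool.Agent.Lib.MP_be0380_co.Upper

/-!
# The smallest sets in `ZMod p` without a unique sum have order `(log p)²`

`m p` is the least size of a set `A ⊆ ZMod p` with at least two elements such that no element of
`A + A` has a unique representation as a sum of an unordered pair of elements of `A`.  We prove
`m p ≍ (log p)²` as `p → ∞` through the primes.

The lower bound is new.  Outline of its proof (`n = |A|`).

* An abstract multiscale argument (`Pool.Agent.Lib.MP_be0380_co.M`, theorem `no_sys`): a weighted set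
  with a translation invariant distance, a notion of knowledge of bounded cost and a confinement
  property cannot satisfy the pair exchange property which the absence of unique sums gives.
* Gibbs measures on the dual group with optimised weights: if `log p` is large against `√n` there is
  a scale of a chain of such measures at which the weights carry too much entropy; this scale gives a
  system of the above kind (three cases).
* The start of the chain: a law on the group with entropy at most `C √n` which is almost invariant
  under the translations by `A`; it is obtained from a chain of laws of Poisson sums with optimised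
  intensities, and again a bad scale gives a system of the above kind.
-/

namespace Pool.Agent.Results.MP_be0380_co.Order

open Finset

/-- `x` is the sum of exactly one unordered pair of elements of `A`
(the two elements of the pair may be equal). -/
def UniqueRep {p : ℕ} (A : Finset (ZMod p)) (x : ZMod p) : Prop :=
  ∃ a ∈ A, ∃ b ∈ A, a + b = x ∧ ∀ c ∈ A, ∀ d ∈ A, c + d = x → s(c, d) = s(a, b)

/-- `A` has no unique sum: no element has a unique representation. -/
def NoUniqueSum {p : ℕ} (A : Finset (ZMod p)) : Prop := ∀ x : ZMod p, ¬ UniqueRep A x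

/-- the least number of elements of a set with at least two elements and no unique sum -/
noncomputable def m (p : ℕ) : ℕ :=
  sInf {k : ℕ | ∃ A : Finset (ZMod p), 2 ≤ #A ∧ NoUniqueSum A ∧ #A = k}

theorem noUniqueSum_iff {p : ℕ} (A : Finset (ZMod p)) :
    NoUniqueSum A ↔ ∀ a ∈ A, ∀ b ∈ A, ∃ c ∈ A, ∃ d ∈ A, c + d = a + b ∧ s(c, d) ≠ s(a, b) := by
  constructor
  · intro h a ha b hb
    by_contra hcon
    apply h (a + b)
    refine ⟨a, ha, b, hb, rfl, ?_⟩
    intro c hc d hd hcd
    by_contra hne
    exact hcon ⟨c, hc, d, hd, hcd, hne⟩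
  · rintro h x ⟨a, ha, b, hb, hab, huniq⟩
    obtain ⟨c, hc, d, hd, hcd, hne⟩ := h a ha b hb
    exact hne (huniq c hc d hd (hcd.trans hab))

/-- The least size `m p` of a set `A ⊆ ZMod p` with at least two elements and no unique sum
is of the order `(log p)²` as `p → ∞` through the primes. -/
theorem result : ∃ c C : ℝ, 0 < c ∧ 0 < C ∧ ∃ P : ℕ, ∀ p : ℕ, p.Prime → P ≤ p →
    c * Real.log p ^ 2 ≤ (m p : ℝ) ∧ (m p : ℝ) ≤ C * Real.log p ^ 2 := by
  obtain ⟨c, hc, p0, hmain⟩ := Pool.MPbe0380.Gb.main_bound
  refine ⟨c, 36, hc, by norm_num, max p0 5, ?_⟩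
  intro p hprime hp
  have : Fact p.Prime := ⟨hprime⟩
  have hp0 : p0 ≤ p := (le_max_left _ _).trans hp
  have hp5 : 5 ≤ p := (le_max_right _ _).trans hp
  obtain ⟨B, hB2, hB, hBc⟩ := PoolBe0380.Upper.exists_set hprime hp5
  have hBN : NoUniqueSum B := (noUniqueSum_iff B).mpr hB
  constructor
  · have hne : {k : ℕ | ∃ A : Finset (ZMod p), 2 ≤ #A ∧ NoUniqueSum A ∧ #A = k}.Nonempty :=
      ⟨#B, B, hB2, hBN, rfl⟩
    obtain ⟨A, hA2, hA, hAm⟩ := Nat.sInf_mem hne
    have hAm' : #A = m p := hAm
    rw [← hAm']
    exact hmain p A hp0 ((noUniqueSum_iff A).mp hA) hA2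
  · have h1 : m p ≤ #B := Nat.sInf_le ⟨B, hB2, hBN, rfl⟩
    calc (m p : ℝ) ≤ #B := by exact_mod_cast h1
      _ ≤ 36 * Real.log p ^ 2 := hBc

end Pool.Agent.Results.MP_be0380_co.Order
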